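import Pool.Agent.H47.KS.Targets

/-!
MP_90d669_co, board ksu_modules, row ANC.
-/

set_option autoImplicit false

namespace Pool.Agent.H78.KSU

open Finset Pool.Agent.H37.SP Pool.Agent.H47.KS

theorem pf_ANC (hTUR : T_TUR) : T_ANC := by
  classical
  intro P N G A C hP hA hC hee hC28
  have hZ1 : (A ∩ C).card + (A \ C).card = A.card := Finset.card_inter_add_card_sdiff A C
  obtain ⟨z, hz⟩ : ∃ z, z = (A ∩ C).card := ⟨_, rfl⟩
  have h1 : ee Gᶜ A ≤ ((P.D + 3 : ℕ) : ℤ) := by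
    rw [ee_compl, hA]
    push_cast
    linarith
  have h2 : ee G (A ∩ C) = C2 z - ee Gᶜ (A ∩ C) := by
    have := ee_compl G (A ∩ C)
    rw [← hz] at this
    linarith
  have h3 : ee Gᶜ (A ∩ C) ≤ ee Gᶜ A := ee_mono Gᶜ Finset.inter_subset_left
  have h4 : ee G (A ∩ C) ≤ ee G C := ee_mono G Finset.inter_subset_right
  have h5 := two_C2 (z : ℤ)
  have hz5 : 5 * z ≤ 4 * P.k := by
    by_contra hcon
    push Not at hcon
    have h6 : (4 * (P.k : ℤ) + 1) ≤ 5 * z := by exact_mod_cast hcon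
    have h7 : (10 * P.k + 25 * (P.D + 3) : ℤ) < (P.k : ℤ) ^ 2 := by exact_mod_cast hP.av
    have h8 : (2 : ℤ) ≤ P.k := by exact_mod_cast hP.k2
    push_cast at h1
    have h9 : (4 * (P.k : ℤ) + 1) * (4 * P.k - 4) ≤ (5 * z) * (5 * z - 5) := by
      apply mul_le_mul h6 (by linarith) (by linarith) (by linarith)
    nlinarith
  have hAC : P.k ≤ 5 * (A \ C).card := by omega
  have haq := hP.aq
  have hmq := hP.mq
  obtain ⟨I, hI, hIm, hIa⟩ := hTUR N Gᶜ (A \ C) (P.D + 3) P.q P.m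
    ((ee_mono Gᶜ Finset.sdiff_subset).trans h1) (by
      have : (P.q + 1) * P.k ≤ (P.q + 1) * (5 * (A \ C).card) := Nat.mul_le_mul_left _ hAC
      have h10 : (P.q + 1) * (5 * (A \ C).card) = 5 * ((P.q + 1) * (A \ C).card) := by ring
      omega) (by
      have h11 : 10 * P.m * (P.q + 1) = 5 * (2 * P.m * (P.q + 1)) := by ring
      omega)
  refine ⟨I, hI.trans Finset.sdiff_subset, ?_, hIm, fun x hx y hy hxy => ?_⟩
  · exact Finset.disjoint_left.2 fun x hx hxC => (Finset.mem_sdiff.1 (hI hx)).2 hxC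
  · have h12 := hIa x hx y hy
    rw [aa_compl G hxy] at h12
    linarith

end Pool.Agent.H78.KSU
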