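import Pool.Agent.H47.KS.Targets

/-!
MP_90d669_co, board ksu_modules, row LX.
-/

set_option autoImplicit false

namespace Pool.Agent.H78.KSU

open Finset Pool.Agent.H37.SP Pool.Agent.H47.KS

/-- few elements are exceptional for a set of tests -/
theorem card_bad {α β : Type*} [DecidableEq α] (A : Finset α) (B : Finset β) (p : α → β → Prop)
    [DecidablePred fun a => ∀ b ∈ B, p a b] [∀ b, DecidablePred fun a => ¬ p a b] (e : ℕ)
    (h : ∀ b ∈ B, (A.filter fun a => ¬ p a b).card ≤ e) :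
    A.card ≤ (A.filter fun a => ∀ b ∈ B, p a b).card + B.card * e := by
  classical
  have h1 : A ⊆ (A.filter fun a => ∀ b ∈ B, p a b) ∪ B.biUnion fun b => A.filter fun a => ¬ p a b := by
    intro a ha
    rw [Finset.mem_union, Finset.mem_filter, Finset.mem_biUnion]
    by_cases h2 : ∀ b ∈ B, p a b
    · exact Or.inl ⟨ha, h2⟩
    · right
      push Not at h2
      obtain ⟨b, hb, hpb⟩ := h2
      exact ⟨b, hb, Finset.mem_filter.2 ⟨ha, hpb⟩⟩
  refine (Finset.card_le_card h1).trans ((Finset.card_union_le _ _).trans ?_)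
  exact Nat.add_le_add_left (Finset.card_biUnion_le_card_mul _ _ _ h) _

theorem pf_LX : T_LX := by
  classical
  intro P N G C K I Z K' I' wK wI s s' hP hB hZC hZ hK' hI' hcK hcI hs hs' hexK hexI
  have hN1 := hP.N1
  -- the independent set
  set I1 := I'.filter (fun a => ∀ z ∈ Z, aa G a z = s' z) with hI1
  have hI1c : I'.card ≤ I1.card + Z.card * (2 * P.E) :=
    card_bad I' Z (fun a z => aa G a z = s' z) (2 * P.E) fun z hz =>
      hexI z (Finset.mem_union_left _ (hZC hz))
  have hI1n : 2 * P.n ≤ I1.card := by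
    rw [hZ] at hI1c
    have : P.N2 * (2 * P.E) = 2 * P.N2 * P.E := by ring
    have h4 : 4 * P.n * P.E = 2 * (2 * P.n * P.E) := by ring
    omega
  obtain ⟨h, hh, hhc⟩ : ∃ h : ℤ, (h = 0 ∨ h = 1) ∧
      P.n ≤ (I1.filter fun c => s c = h).card := by
    by_cases h1 : P.n ≤ (I1.filter fun c => s c = 0).card
    · exact ⟨0, Or.inl rfl, h1⟩
    · refine ⟨1, Or.inr rfl, ?_⟩
      have h2 : I1 ⊆ (I1.filter fun c => s c = 0) ∪ (I1.filter fun c => s c = 1) := by
        intro c hc
        rcases hs c with h3 | h3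
        · exact Finset.mem_union_left _ (Finset.mem_filter.2 ⟨hc, h3⟩)
        · exact Finset.mem_union_right _ (Finset.mem_filter.2 ⟨hc, h3⟩)
      have h3 := (Finset.card_le_card h2).trans (Finset.card_union_le _ _)
      omega
  obtain ⟨I3, hI3, hI3c⟩ := Finset.exists_subset_card_eq hhc
  have hI3' : ∀ c ∈ I3, c ∈ I' ∧ (∀ z ∈ Z, aa G c z = s' z) ∧ s c = h := by
    intro c hc
    have h1 := Finset.mem_filter.1 (hI3 hc)
    have h2 := Finset.mem_filter.1 h1.1
    exact ⟨h2.1, h2.2, h1.2⟩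
  -- the clique
  set K1 := K'.filter (fun a => ∀ z ∈ Z ∪ I3, aa G a z = s z) with hK1
  have hK1c : K'.card ≤ K1.card + (Z ∪ I3).card * (2 * P.E) :=
    card_bad K' (Z ∪ I3) (fun a z => aa G a z = s z) (2 * P.E) fun z hz => by
      refine hexK z ?_
      rcases Finset.mem_union.1 hz with h1 | h1
      · exact Finset.mem_union_left _ (hZC h1)
      · exact Finset.mem_union_right _ (hI' (hI3' z h1).1)
  have hZI : (Z ∪ I3).card ≤ P.N2 + P.n := by
    refine (Finset.card_union_le _ _).trans ?_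
    rw [hZ, hI3c]
  have hK1n : P.n ≤ K1.card := by
    have h1 : (Z ∪ I3).card * (2 * P.E) ≤ (P.N2 + P.n) * (2 * P.E) := Nat.mul_le_mul_right _ hZI
    have h2 : (P.N2 + P.n) * (2 * P.E) = 2 * P.N2 * P.E + 2 * P.n * P.E := by ring
    have h4 : 4 * P.n * P.E = 2 * (2 * P.n * P.E) := by ring
    omega
  obtain ⟨K3, hK3, hK3c⟩ := Finset.exists_subset_card_eq hK1n
  have hK3' : ∀ a ∈ K3, a ∈ K' ∧ ∀ z ∈ Z ∪ I3, aa G a z = s z := by
    intro a ha
    exact Finset.mem_filter.1 (hK3 ha)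
  refine ⟨K3, I3, h, ?_⟩
  exact
    { cC := hB.cC
      cK := hK3c
      cI := hI3c
      ZC := hZC
      dKC := Finset.disjoint_left.2 fun a ha => Finset.disjoint_left.1 hB.dKC (hK' (hK3' a ha).1)
      dIC := Finset.disjoint_left.2 fun a ha => Finset.disjoint_left.1 hB.dIC (hI' (hI3' a ha).1)
      dKI := Finset.disjoint_left.2 fun a ha ha' =>
        Finset.disjoint_left.1 hB.dKI (hK' (hK3' a ha).1) (hI' (hI3' a ha').1)
      clq := fun a ha b hb hab => hB.clq a (hK' (hK3' a ha).1) b (hK' (hK3' b hb).1) hab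
      ind := fun a ha b hb hab => hB.ind a (hI' (hI3' a ha).1) b (hI' (hI3' b hb).1) hab
      wtK := fun a ha => hB.wtK a (hK' (hK3' a ha).1)
      wtI := fun a ha => hB.wtI a (hI' (hI3' a ha).1)
      tK := hs
      tI := hs'
      th := hh
      ZK := fun a ha x hx => (hK3' a ha).2 x (Finset.mem_union_left _ hx)
      ZI := fun a ha x hx => (hI3' a ha).2.1 x hx
      KI := fun a ha c hc => by
        rw [(hK3' a ha).2 c (Finset.mem_union_right _ hc), (hI3' c hc).2.2] }

end Pool.Agent.H78.KSU
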